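import Mathlib
import Pool.Agent.N740.HK.Sch
import Pool.Agent.N315.CC.Poly
import Pool.Agent.N315.PS.Full

/-!
# The Poisson law for chains of exact length in all sieved sequential random models of the primes

The integers are decided one after the other; the multiples of the primes of a finite set `Q` are never chosen and
the conditional probability of choosing an integer `n + 1` which is not such a multiple, given the decisions up to
`n`, is asymptotic to `∏_{p ∈ Q} (1 - 1 / p)⁻¹ / log n`, almost surely.  Nothing else is assumed: no independence and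
no rate of convergence.  For `Q = ∅` the independent model of Cramér and the random sieve of Hawkins are examples.

Let `T` be an integer polynomial with `T(z) > z` for all large `z` (Cunningham chains of the second kind:
`T(z) = 2 z - 1`), and let `M` be the set of the `n` for which exactly the first `k` terms of `n, T(n), T(T(n)), ...`
are chosen.  Almost surely, for all `T`, `k` and `λ > 0` at once, the number of elements of `M` in the windows
`(x, x + (λ / c) log ^ k x]` follows the Poisson law with parameter `λ`, as `x` runs through the integers below `X` and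
`X → ∞`, and the proportion of the elements `s` of `M` which are followed by a gap larger than `(λ / c) log ^ k s`
tends to `exp (-λ)`.  Here `c` is the truncated constant of Bateman and Horn, which is assumed to be positive (it
is for `2 z - 1` and for `2 z + 1`).

Proof. The candidates (the places where the last term is tried) are counted, in most windows, by a concentration
inequality. The conditional probability of exactly `r` successes is bounded from above by the exact limit, and an
exponential inequality for windows which do not overlap gives the upper frequencies of all `r`, almost surely; as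
the limits have the sum one, these are the frequencies. The gaps are treated by differences of the frequencies of
empty windows of two lengths.
-/

set_option autoImplicit false

open MeasureTheory Filter Set ProbabilityTheory Polynomial
open scoped Topology

namespace Pool.Agent.Results.MP_39b545_nt.PoissonLaw

variable {Ω : Type}

/-- `A n` is the event that `n` is chosen; adapted to `ℱ`; multiples of the primes in `Q` are not
chosen; the conditional probability of `A (n + 1)` given `ℱ n`, times `log n`, tends almost surely to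
`∏_{p ∈ Q} (1 - 1 / p)⁻¹` along the `n` such that no `p ∈ Q` divides `n + 1` -/
def SievedModel [m : MeasurableSpace Ω] (μ : Measure Ω) (ℱ : Filtration ℕ m)
    (A : ℕ → Set Ω) (Q : Finset ℕ) : Prop :=
  (∀ n, MeasurableSet[ℱ n] (A n)) ∧ (∀ n, (∃ p ∈ Q, p ∣ n) → A n = ∅) ∧
  ∀ᵐ ω ∂μ, Tendsto (fun n : ℕ => (μ[(A (n + 1)).indicator (fun _ => (1 : ℝ)) | ℱ n]) ω * Real.log n)
    (atTop ⊓ 𝓟 {n : ℕ | ∀ p ∈ Q, ¬ p ∣ n + 1}) (𝓝 (∏ p ∈ Q, (1 - 1 / (p : ℝ))⁻¹))

/-- The model of Cramér: independent events, `n` is chosen with probability `1 / log n` for `n ≥ 3`. -/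
def CramerModel [MeasurableSpace Ω] (μ : Measure Ω) (A : ℕ → Set Ω) : Prop :=
  (∀ n, MeasurableSet (A n)) ∧ iIndepSet A μ ∧ ∀ n : ℕ, 3 ≤ n → μ (A n) = ENNReal.ofReal (1 / Real.log n)

open Classical in
/-- The random sieve of Hawkins: `2` is chosen, and given the decisions up to `n ≥ 2` the number
`n + 1` is chosen with probability `∏ (1 - 1 / h)`, the product over the chosen `2 ≤ h ≤ n`. -/
def HawkinsSieve [m : MeasurableSpace Ω] (μ : Measure Ω) (ℱ : Filtration ℕ m) (A : ℕ → Set Ω) : Prop :=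
  (∀ n, MeasurableSet[ℱ n] (A n)) ∧ A 2 = univ ∧
  ∀ n, 2 ≤ n → μ[(A (n + 1)).indicator (fun _ => (1 : ℝ)) | ℱ n] =ᵐ[μ]
    fun ω => ∏ h ∈ Finset.Icc 2 n, if ω ∈ A h then 1 - 1 / (h : ℝ) else 1

/-- term number `i` of the sequence `n, T(n), T(T(n)), …` -/
def term (T : ℤ[X]) (n : ℤ) (i : ℕ) : ℤ := (fun z : ℤ => T.eval z)^[i] n

/-- the integer `z` is an element of `S` -/
def In (S : Set ℕ) (z : ℤ) : Prop := ∃ m ∈ S, (m : ℤ) = z

/-- the `n` whose sequence starts with exactly `k` elements of `S`: the terms number `0, …, k - 1`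
are elements of `S`, the term number `k` is not -/
def exact (S : Set ℕ) (T : ℤ[X]) (k : ℕ) : Set ℕ :=
  {n | (∀ i < k, In S (term T n i)) ∧ ¬ In S (term T n k)}

/-- the number of the residues `r` modulo `p` such that `p` divides one of the terms number
`0, …, k - 1` of the sequence of `r` -/
noncomputable def zeros (T : ℤ[X]) (k p : ℕ) : ℕ :=
  {r : ℕ | r < p ∧ ∃ i < k, (p : ℤ) ∣ term T r i}.ncard

/-- the constant of Bateman and Horn, truncated to the primes of `Q` -/
noncomputable def const (Q : Finset ℕ) (T : ℤ[X]) (k : ℕ) : ℝ :=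
  (∏ p ∈ Q, (1 - (zeros T k p : ℝ) / p) / (1 - 1 / (p : ℝ)) ^ k) / (T.natDegree : ℝ) ^ (k * (k - 1) / 2)

/-- The least element of `M` greater than `s`. -/
noncomputable def nextElement (M : Set ℕ) (s : ℕ) : ℕ := sInf {t | t ∈ M ∧ s < t}

open Pool.Agent.N740.HK Pool.Agent.R528.RM Pool.Agent.N315.CC Pool.Agent.N315.PL Pool.Agent.N315.PS

lemma prod_inv (A : ℕ → Set Ω) (n : ℕ) (ω : Ω) [DecidablePred fun h => ω ∈ A h] :
    (∏ h ∈ Finset.Icc 2 n, if ω ∈ A h then 1 - 1 / (h : ℝ) else 1) = (Y A n ω)⁻¹ := by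
  unfold Y
  rw [← Finset.prod_inv_distrib]
  refine Finset.prod_congr rfl fun h hh => ?_
  have h2 : (2 : ℝ) ≤ h := by exact_mod_cast (Finset.mem_Icc.1 hh).1
  by_cases hA : ω ∈ A h
  · rw [if_pos hA, if_pos hA, inv_div]
    field_simp
  · rw [if_neg hA, if_neg hA, inv_one]

lemma log_ratio : Tendsto (fun n : ℕ => (Real.log ((n + 1 : ℕ) : ℝ))⁻¹ * Real.log n) atTop (𝓝 1) := by
  have h1 : Tendsto (fun n : ℕ => Real.log ((n : ℝ) + 1) - Real.log n) atTop (𝓝 0) := by
    have h1 : Tendsto (fun n : ℕ => 1 + (1 : ℝ) / n) atTop (𝓝 (1 + 0)) :=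
      tendsto_const_nhds.add tendsto_one_div_atTop_nhds_zero_nat
    rw [add_zero] at h1
    have h2 := (Real.continuousAt_log (one_ne_zero)).tendsto.comp h1
    rw [Real.log_one] at h2
    refine h2.congr' ?_
    filter_upwards [eventually_gt_atTop 0] with n hn
    have hn' : (0 : ℝ) < n := by exact_mod_cast hn
    show Real.log (1 + 1 / (n : ℝ)) = _
    rw [← Real.log_div (by positivity) hn'.ne']
    congr 1
    field_simp
  have h2 : Tendsto (fun n : ℕ => Real.log ((n : ℝ) + 1)) atTop atTop :=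
    Real.tendsto_log_atTop.comp (tendsto_atTop_add_const_right _ _ tendsto_natCast_atTop_atTop)
  have h3 := h1.div_atTop h2
  have h4 : Tendsto (fun n : ℕ => 1 - (Real.log ((n : ℝ) + 1) - Real.log n) / Real.log ((n : ℝ) + 1)) atTop (𝓝 (1 - 0)) :=
    tendsto_const_nhds.sub h3
  rw [sub_zero] at h4
  refine h4.congr' ?_
  filter_upwards [h2.eventually_gt_atTop 0] with n hn
  push_cast
  field_simp
  ring

/-- the terms as polynomials -/
noncomputable def pol (T : ℤ[X]) : ℕ → ℤ[X]
  | 0 => X
  | i + 1 => T.comp (pol T i)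

lemma eval_pol (T : ℤ[X]) (n : ℤ) (i : ℕ) : (pol T i).eval n = term T n i := by
  induction i with
  | zero => simp [pol, term]
  | succ i ih =>
    unfold pol term
    rw [eval_comp, ih, Function.iterate_succ_apply']
    rfl

lemma deg_pol (T : ℤ[X]) (i : ℕ) : (pol T i).natDegree = T.natDegree ^ i := by
  induction i with
  | zero => simp [pol]
  | succ i ih =>
    unfold pol
    rw [natDegree_comp, ih, pow_succ, mul_comm]

lemma term_lt {T : ℤ[X]} (hT : ∀ᶠ z : ℤ in atTop, z < T.eval z) :
    ∃ z₀ : ℤ, ∀ z, z₀ ≤ z → ∀ i j, i < j → term T z i < term T z j := by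
  obtain ⟨z₀, hz₀⟩ := eventually_atTop.1 hT
  refine ⟨z₀, fun z hz => ?_⟩
  have h1 : ∀ i, z₀ ≤ term T z i := by
    intro i
    induction i with
    | zero => exact hz
    | succ i ih =>
      have h2 : term T z (i + 1) = T.eval (term T z i) := Function.iterate_succ_apply' _ _ _
      rw [h2]
      exact ih.trans (hz₀ _ ih).le
  have h3 : StrictMono (fun i => term T z i) := strictMono_nat_of_lt_succ fun i => by
    have h2 : term T z (i + 1) = T.eval (term T z i) := Function.iterate_succ_apply' _ _ _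
    show term T z i < term T z (i + 1)
    rw [h2]
    exact hz₀ _ (h1 i)
  exact fun i j hij => h3 hij

lemma pol_inj {T : ℤ[X]} (hT : ∀ᶠ z : ℤ in atTop, z < T.eval z) : Function.Injective (pol T) := by
  obtain ⟨z₀, hz₀⟩ := term_lt hT
  intro i j hij
  have h1 := congrArg (fun f => Polynomial.eval z₀ f) hij
  simp only [eval_pol] at h1
  rcases lt_trichotomy i j with h | h | h
  · exact absurd h1 (hz₀ z₀ le_rfl i j h).ne
  · exact h
  · exact absurd h1 (hz₀ z₀ le_rfl j i h).ne'

lemma pol_pos {T : ℤ[X]} (hT : ∀ᶠ z : ℤ in atTop, z < T.eval z) (i : ℕ) :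
    0 < (pol T i).natDegree ∧ 0 < (pol T i).leadingCoeff := by
  rcases i with _ | i
  · simp [pol]
  · obtain ⟨z₀, hz₀⟩ := term_lt hT
    have h1 : ∀ᶠ z : ℤ in atTop, z < (pol T (i + 1)).eval z := by
      filter_upwards [eventually_ge_atTop z₀] with z hz
      rw [eval_pol]
      exact hz₀ z hz 0 (i + 1) (Nat.succ_pos i)
    obtain ⟨h2, h3⟩ := lead_pos _ h1
    rw [lead_cast] at h3
    refine ⟨?_, by exact_mod_cast h3⟩
    rw [← deg_cast]
    exact natDegree_pos_iff_degree_pos.2 h2

/-- the system -/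
noncomputable def sys (T : ℤ[X]) (k : ℕ) : Finset ℤ[X] := (Finset.range k).image (pol T)

lemma sys_card {T : ℤ[X]} (hT : ∀ᶠ z : ℤ in atTop, z < T.eval z) (k : ℕ) : (sys T k).card = k := by
  unfold sys
  rw [Finset.card_image_of_injective _ (pol_inj hT), Finset.card_range]

lemma sys_pos {T : ℤ[X]} (hT : ∀ᶠ z : ℤ in atTop, z < T.eval z) (k : ℕ) :
    ∀ f ∈ sys T k, 0 < f.natDegree ∧ 0 < f.leadingCoeff := by
  intro f hf
  obtain ⟨i, _, rfl⟩ := Finset.mem_image.1 hf
  exact pol_pos hT i

lemma mem_sys (S : Set ℕ) (T : ℤ[X]) (k : ℕ) (n : ℕ) : n ∈ PM S (sys T k) ↔ ∀ i < k, In S (term T n i) := by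
  unfold sys In PM
  simp only [mem_ofPred_eq, Finset.mem_image, Finset.mem_range, forall_exists_index, and_imp]
  constructor
  · intro h1 i hi
    have := h1 (pol T i) i hi rfl
    rwa [eval_pol] at this
  · rintro h1 f i hi rfl
    rw [eval_pol]
    exact h1 i hi

lemma omega_sys (T : ℤ[X]) (k : ℕ) {p : ℕ} (hp : p.Prime) : omegaF (sys T k) p = zeros T k p := by
  unfold omegaF zeros sys
  congr 1
  ext r
  simp only [Set.mem_ofPred_eq]
  refine and_congr_right fun _ => ?_
  rw [(Nat.prime_iff_prime_int.1 hp).dvd_finsetProd_iff]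
  simp only [Finset.mem_image, Finset.mem_range]
  constructor
  · rintro ⟨f, ⟨i, hi, rfl⟩, hf⟩
    rw [eval_pol] at hf
    exact ⟨i, hi, hf⟩
  · rintro ⟨i, hi, hf⟩
    refine ⟨_, ⟨i, hi, rfl⟩, ?_⟩
    rwa [eval_pol]

lemma const_sys {T : ℤ[X]} (hT : ∀ᶠ z : ℤ in atTop, z < T.eval z) (Q : Finset ℕ) (hQ : ∀ p ∈ Q, p.Prime) (k : ℕ) :
    bc Q (sys T k) = const Q T k := by
  unfold bc const
  rw [sys_card hT, div_eq_mul_inv]
  congr 1
  · refine Finset.prod_congr rfl fun p hp => ?_
    rw [omega_sys T k (hQ p hp)]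
  · unfold sys
    rw [Finset.prod_image (fun i _ j _ hij => pol_inj hT hij), Finset.prod_inv_distrib]
    congr 1
    rw [← Finset.sum_range_id, ← Finset.prod_pow_eq_pow_sum]
    refine Finset.prod_congr rfl fun i _ => ?_
    rw [deg_pol]
    push_cast
    rfl

lemma wn_ncard (M : Set ℕ) {α : ℝ} (hα : 0 ≤ α) (k x : ℕ) :
    {n | n ∈ M ∧ x < n ∧ (n : ℝ) ≤ x + α * Real.log x ^ k}.ncard = wn M (LL α k) x := by
  classical
  have hy : 0 ≤ α * Real.log x ^ k := mul_nonneg hα (pow_nonneg (Real.log_natCast_nonneg x) k)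
  unfold wn
  rw [← Set.ncard_coe_finset]
  congr 1
  ext n
  simp only [Finset.coe_filter, Finset.mem_Ioc, mem_ofPred_eq]
  have h1 : x < n → ((n : ℝ) ≤ x + α * Real.log x ^ k ↔ n ≤ x + LL α k x) := by
    intro hn
    have e : (n : ℝ) = x + ((n - x : ℕ) : ℝ) := by
      rw [Nat.cast_sub hn.le]
      ring
    constructor
    · intro h
      have h2 : ((n - x : ℕ) : ℝ) ≤ α * Real.log x ^ k := by linarith
      have h3 : n - x ≤ LL α k x := Nat.le_floor h2
      omega
    · intro h
      have h3 : n - x ≤ LL α k x := by omega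
      have h4 : ((n - x : ℕ) : ℝ) ≤ α * Real.log x ^ k := (Nat.le_floor_iff hy).1 h3
      linarith
  constructor
  · rintro ⟨h2, h3, h4⟩
    exact ⟨⟨h3, (h1 h3).1 h4⟩, h2⟩
  · rintro ⟨⟨h3, h4⟩, h2⟩
    exact ⟨h2, h3, (h1 h3).2 h4⟩

lemma term_mod (T : ℤ[X]) (p : ℕ) (n m : ℤ) (hnm : (p : ℤ) ∣ n - m) (i : ℕ) : (p : ℤ) ∣ term T n i - term T m i := by
  rw [← eval_pol, ← eval_pol]
  exact dvd_trans hnm (Polynomial.sub_dvd_eval_sub n m _)

lemma zeros_lt (T : ℤ[X]) (k : ℕ) {p : ℕ} (hp : p.Prime) {r : ℤ} (hr : ∀ i < k, ¬ (p : ℤ) ∣ term T r i) : zeros T k p < p := by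
  classical
  have h0 : zeros T k p = ((Finset.range p).filter (fun r : ℕ => ∃ i < k, (p : ℤ) ∣ term T r i)).card := by
    unfold zeros
    rw [← Set.ncard_coe_finset]
    congr 1
    ext r
    simp
  rw [h0]
  have hp0 : (0 : ℤ) < p := by exact_mod_cast hp.pos
  have h1 : (Finset.range p).filter (fun r : ℕ => ∃ i < k, (p : ℤ) ∣ term T r i) ⊂ Finset.range p := by
    have e1 : 0 ≤ r % p := Int.emod_nonneg _ hp0.ne'
    have e2 : r % p < p := Int.emod_lt_of_pos _ hp0
    refine Finset.filter_ssubset.2 ⟨(r % p).toNat, Finset.mem_range.2 (by omega), ?_⟩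
    rintro ⟨i, hi, hd⟩
    rw [Int.toNat_of_nonneg e1] at hd
    apply hr i hi
    have h3 := term_mod T p r (r % p) (Int.dvd_self_sub_emod) i
    have h4 := dvd_add h3 hd
    rwa [sub_add_cancel] at h4
  have h2 := Finset.card_lt_card h1
  rwa [Finset.card_range] at h2

lemma const_pos (Q : Finset ℕ) (hQ : ∀ p ∈ Q, p.Prime) (T : ℤ[X]) (hT : 0 < T.natDegree) (k : ℕ)
    (h : ∀ p ∈ Q, ∃ r : ℤ, ∀ i < k, ¬ (p : ℤ) ∣ term T r i) : 0 < const Q T k := by
  unfold const
  refine div_pos (Finset.prod_pos fun p hp => ?_) (by positivity)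
  obtain ⟨r, hr⟩ := h p hp
  have h1 : (1 : ℝ) < p := by exact_mod_cast (hQ p hp).one_lt
  have h3 : 0 < 1 - 1 / (p : ℝ) := by
    rw [sub_pos, div_lt_one (by linarith)]
    exact h1
  have h4 : (zeros T k p : ℝ) < p := by exact_mod_cast zeros_lt T k (hQ p hp) hr
  refine div_pos ?_ (pow_pos h3 k)
  rw [sub_pos, div_lt_one (by linarith)]
  exact h4

lemma fix_term {T : ℤ[X]} {z : ℤ} (h : T.eval z = z) (i : ℕ) : term T z i = z := by
  unfold term
  exact Function.iterate_fixed h i

lemma sieved_of_seq [m : MeasurableSpace Ω] {μ : Measure Ω} {ℱ : Filtration ℕ m} {A : ℕ → Set Ω}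
    (h1 : ∀ n, MeasurableSet[ℱ n] (A n))
    (h2 : ∀ᵐ ω ∂μ, Tendsto (fun n : ℕ => (μ[(A (n + 1)).indicator (fun _ => (1 : ℝ)) | ℱ n]) ω * Real.log n) atTop (𝓝 1)) :
    SievedModel μ ℱ A ∅ := by
  refine ⟨h1, fun n hn => ?_, ?_⟩
  · obtain ⟨p, hp, _⟩ := hn
    exact absurd hp (Finset.notMem_empty p)
  · filter_upwards [h2] with ω hω
    rw [Finset.prod_empty]
    exact hω.mono_left inf_le_left

end Pool.Agent.Results.MP_39b545_nt.PoissonLaw

open Pool.Agent.Results.MP_39b545_nt.PoissonLaw Pool.Agent.N740.HK Pool.Agent.R528.RM Pool.Agent.N315.PS Pool.Agent.N315.CC Pool.Agent.N315.PL Polynomial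

/-- The model of Cramér (for some filtration) and the random sieve of Hawkins are sieved models with `Q = ∅`.
In every sieved model, almost surely, for all integer polynomials `T` with `T(z) > z` for large `z`, all `k ≥ 1`
with `c = const Q T k > 0` and all `λ > 0`, for the set `M` of the `n` for which exactly the first `k` of the numbers
`n, T(n), T(T(n)), ...` are chosen: the proportion of the `x < X` for which exactly `r` elements of `M` are
in `(x, x + (λ / c) log ^ k x]` tends to `λ ^ r / r! exp (-λ)`, and the proportion of the elements `s < X` of `M` such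
that the next element of `M` is at a distance larger than `(λ / c) log ^ k s` tends to `exp (-λ)`. The
hypotheses on `T` and `c` hold for `T = 2 z - 1` and all `k`, and for `T = 2 z + 1` and all `k`. -/
theorem Pool.Agent.Results.MP_39b545_nt.PoissonLaw.result
    {Ω : Type} [m : MeasurableSpace Ω] (μ : Measure Ω) [IsProbabilityMeasure μ] (A : ℕ → Set Ω) :
    (CramerModel μ A → ∃ ℱ : Filtration ℕ m, SievedModel μ ℱ A ∅) ∧
    (∀ ℱ : Filtration ℕ m, HawkinsSieve μ ℱ A → SievedModel μ ℱ A ∅) ∧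
    (∀ (ℱ : Filtration ℕ m) (Q : Finset ℕ), (∀ p ∈ Q, p.Prime) → SievedModel μ ℱ A Q →
      ∀ᵐ ω ∂μ, ∀ T : ℤ[X], (∀ᶠ z : ℤ in atTop, z < T.eval z) → ∀ k : ℕ, 1 ≤ k → 0 < const Q T k →
        ∀ lam : ℝ, 0 < lam →
        (∀ r : ℕ, Tendsto (fun X : ℕ => ({x : ℕ | x < X ∧
          {n : ℕ | n ∈ exact {n | ω ∈ A n} T k ∧ x < n ∧ (n : ℝ) ≤ x + lam / const Q T k * Real.log x ^ k}.ncard = r}.ncard : ℝ) / X)
          atTop (𝓝 (lam ^ r / (r.factorial : ℝ) * Real.exp (-lam)))) ∧
        Tendsto (fun X : ℕ => ({s : ℕ | s < X ∧ s ∈ exact {n | ω ∈ A n} T k ∧ lam / const Q T k * Real.log s ^ k <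
            (nextElement (exact {n | ω ∈ A n} T k) s : ℝ) - s}.ncard : ℝ) /
          ({s : ℕ | s < X ∧ s ∈ exact {n | ω ∈ A n} T k}.ncard : ℝ)) atTop (𝓝 (Real.exp (-lam)))) ∧
    (∀ T : ℤ[X], T = 2 * X - 1 ∨ T = 2 * X + 1 → (∀ᶠ z : ℤ in atTop, z < T.eval z) ∧
      ∀ (Q : Finset ℕ), (∀ p ∈ Q, p.Prime) → ∀ k : ℕ, 0 < const Q T k) := by
  classical
  refine ⟨?_, ?_, ?_, ?_⟩
  · rintro ⟨hA, hi, hp⟩
    refine ⟨gen hA, sieved_of_seq (gen_meas hA) ?_⟩
    have h1 : ∀ᵐ ω ∂μ, ∀ n, (μ[(A (n + 1)).indicator (fun _ => (1 : ℝ)) | gen hA n]) ω =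
        (μ (A (n + 1))).toReal := ae_all_iff.2 fun n => dens_gen hA hi n
    filter_upwards [h1] with ω hω
    refine log_ratio.congr' ?_
    filter_upwards [eventually_ge_atTop 2] with n hn
    rw [hω, hp (n + 1) (by omega), ENNReal.toReal_ofReal, one_div]
    have : 0 ≤ Real.log ((n + 1 : ℕ) : ℝ) := Real.log_natCast_nonneg _
    positivity
  · rintro ℱ ⟨h1, h2, h3⟩
    have hs : Pool.Agent.N740.HK.HS μ ℱ A := ⟨h1, h2, fun n hn => by
      filter_upwards [h3 n hn] with ω hω
      rw [← prod_inv]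
      exact hω⟩
    exact sieved_of_seq h1 (Pool.Agent.N740.HK.hawk_dens hs)
  · rintro ℱ Q hQ ⟨hA, hcop, hd⟩
    filter_upwards [full (μ := μ) (ℱ := ℱ) hA Q hQ hcop hd] with ω hω T hT k hk hC lam hlam
    set S : Set ℕ := {a | ω ∈ A a} with hS
    obtain ⟨m1, m2⟩ := hω (sys T k) (sys_pos hT k)
    obtain ⟨e1, _⟩ := hω (sys T (k + 1)) (sys_pos hT (k + 1))
    rw [sys_card hT] at m1 m2 e1
    rw [const_sys hT Q hQ] at m1 m2
    have hne : (sys T k).Nonempty := Finset.card_pos.1 (by rw [sys_card hT]; omega)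
    have hFM : exact S T k ⊆ PM S (sys T k) := fun n hn => (mem_sys S T k n).2 hn.1
    have hE : PM S (sys T k) ⊆ exact S T k ∪ PM S (sys T (k + 1)) := by
      intro n hn
      rw [mem_sys] at hn
      by_cases h : In S (term T n k)
      · right
        rw [mem_sys]
        intro i hi
        rcases Nat.lt_succ_iff_lt_or_eq.1 hi with h4 | h4
        · exact hn i h4
        · rw [h4]
          exact h
      · exact Or.inl ⟨hn, h⟩
    have e2 : Tendsto (fun X : ℕ => (cn (PM S (sys T (k + 1))) X : ℝ) * Real.log X ^ k / X) atTop (𝓝 0) := by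
      have h3 : Tendsto (fun x : ℕ => (Real.log (x : ℝ))⁻¹) atTop (𝓝 0) :=
        (Real.tendsto_log_atTop.comp tendsto_natCast_atTop_atTop).inv_tendsto_atTop
      have h4 := e1.mul h3
      rw [mul_zero] at h4
      refine h4.congr' ?_
      filter_upwards [eventually_ge_atTop 3] with x hx
      have hx' : (3 : ℝ) ≤ x := by exact_mod_cast hx
      have hL : Real.log (x : ℝ) ≠ 0 := (Real.log_pos (by linarith)).ne'
      rw [pow_succ]
      field_simp
    obtain ⟨_, g2⟩ := full_gaps hC (show k ≠ 0 by omega) hFM hE m1 e2 (m2 hne hC)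
    obtain ⟨g3, g4⟩ := g2 lam hlam
    refine ⟨fun r => ?_, ?_⟩
    · refine (g3 r).congr fun X => ?_
      rw [cn_ncard]
      congr 3
      ext x
      simp only [mem_ofPred_eq]
      rw [wn_ncard _ (by positivity)]
    · refine g4.congr fun X => ?_
      rw [cn_ncard, cn_ncard]
      rfl
  · rintro T (rfl | rfl)
    · have hd : (2 * X - 1 : ℤ[X]).natDegree = 1 := by
        have : (2 * X - 1 : ℤ[X]) = C 2 * X + C (-1) := by
          rw [C_neg]
          rfl
        rw [this]
        exact natDegree_linear (by norm_num)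
      refine ⟨?_, fun Q hQ k => const_pos Q hQ _ (by rw [hd]; exact one_pos) k fun p hp => ⟨1, fun i _ hdv => ?_⟩⟩
      · filter_upwards [eventually_gt_atTop 1] with z hz
        simp only [eval_sub, eval_mul, eval_ofNat, eval_X, eval_one]
        linarith
      · rw [fix_term (by simp)] at hdv
        have h4 : p ∣ 1 := by exact_mod_cast hdv
        exact (hQ p hp).one_lt.ne' (Nat.dvd_one.1 h4)
    · have hd : (2 * X + 1 : ℤ[X]).natDegree = 1 := by
        have : (2 * X + 1 : ℤ[X]) = C 2 * X + C 1 := by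
          rw [C_1]
          rfl
        rw [this]
        exact natDegree_linear (by norm_num)
      refine ⟨?_, fun Q hQ k => const_pos Q hQ _ (by rw [hd]; exact one_pos) k fun p hp => ⟨-1, fun i _ hdv => ?_⟩⟩
      · filter_upwards [eventually_gt_atTop 1] with z hz
        simp only [eval_add, eval_mul, eval_ofNat, eval_X, eval_one]
        linarith
      · rw [fix_term (by simp)] at hdv
        have h3 : (p : ℤ) ∣ 1 := by
          have := (Int.dvd_neg).2 hdv
          simpa using this
        have h4 : p ∣ 1 := by exact_mod_cast h3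
        exact (hQ p hp).one_lt.ne' (Nat.dvd_one.1 h4)
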