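import Pool.Agent.R528.RM.BHOut

set_option autoImplicit false

/-!
# Chains of exact length in all sieved sequential random models of the primes

The integers are decided one after the other; the multiples of the primes of a finite set `Q` are
never chosen and the conditional probability of choosing an integer `n + 1` which is not such a
multiple, given the decisions up to `n`, is asymptotic to `∏_{p ∈ Q} (1 - 1 / p)⁻¹ / log n`, almost
surely.  No independence and no rate of convergence are assumed.  Almost surely, for all maps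
`T x = a x + h`, `a ≥ 2`, and all `k` at once, the number of the `n < x` for which exactly the first
`k` terms of `n, T n, T (T n), …` are chosen is asymptotic to its expected order.
-/

open MeasureTheory Filter Polynomial
open scoped Topology

namespace Pool.Agent.Results.MP_39b545_nt.SievedModels

/-- the term number `i` of the sequence `n, a n + h, a (a n + h) + h, …` -/
def term (a : ℕ) (h : ℤ) (n : ℤ) : ℕ → ℤ
  | 0 => n
  | i + 1 => a * term a h n i + h

/-- the integer `z` is an element of `S` -/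
def In (S : Set ℕ) (z : ℤ) : Prop := ∃ m ∈ S, (m : ℤ) = z

/-- the `n` whose sequence starts with exactly `k` elements of `S`: the terms number `0, …, k - 1`
are elements of `S`, the term number `k` is not -/
def exact (S : Set ℕ) (a : ℕ) (h : ℤ) (k : ℕ) : Set ℕ :=
  {n | (∀ i < k, In S (term a h n i)) ∧ ¬ In S (term a h n k)}

/-- the number of the residues `r` modulo `p` such that `p` divides one of the terms number
`0, …, k - 1` of the sequence of `r` -/
noncomputable def zeros (a : ℕ) (h : ℤ) (k p : ℕ) : ℕ :=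
  {r : ℕ | r < p ∧ ∃ i < k, (p : ℤ) ∣ term a h r i}.ncard

/-- the factors of the constant of Bateman and Horn at the primes of `Q` -/
noncomputable def const (Q : Finset ℕ) (a : ℕ) (h : ℤ) (k : ℕ) : ℝ :=
  ∏ p ∈ Q, (1 - (zeros a h k p : ℝ) / p) / (1 - 1 / (p : ℝ)) ^ k

open Pool.Agent.R528.RM

/-- `A n` is the event that `n` is chosen; adapted to `ℱ`; multiples of the primes in `Q` are not
chosen; the conditional probability of `A (n + 1)` given `ℱ n`, times `log n`, tends almost surely to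
`∏_{p ∈ Q} (1 - 1 / p)⁻¹` along the `n` such that no `p ∈ Q` divides `n + 1` -/
def SievedModel {Ω : Type} [m : MeasurableSpace Ω] (μ : Measure Ω) (ℱ : Filtration ℕ m)
    (A : ℕ → Set Ω) (Q : Finset ℕ) : Prop :=
  (∀ n, MeasurableSet[ℱ n] (A n)) ∧ (∀ n, (∃ p ∈ Q, p ∣ n) → A n = ∅) ∧
  ∀ᵐ ω ∂μ, Tendsto (fun n : ℕ => (μ[(A (n + 1)).indicator (fun _ => (1 : ℝ)) | ℱ n]) ω * Real.log n)
    (atTop ⊓ 𝓟 {n : ℕ | ∀ p ∈ Q, ¬ p ∣ n + 1}) (𝓝 (∏ p ∈ Q, (1 - 1 / (p : ℝ))⁻¹))

/-- the terms as polynomials -/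
noncomputable def pol (a : ℕ) (h : ℤ) : ℕ → ℤ[X]
  | 0 => X
  | i + 1 => C (a : ℤ) * pol a h i + C h

lemma eval_pol (a : ℕ) (h n : ℤ) (i : ℕ) : (pol a h i).eval n = term a h n i := by
  induction i with
  | zero => simp [pol, term]
  | succ i ih => simp [pol, term, ih]

lemma pol_form (a : ℕ) (h : ℤ) (i : ℕ) : ∃ c : ℤ, pol a h i = C ((a : ℤ) ^ i) * X + C c := by
  induction i with
  | zero => exact ⟨0, by simp [pol]⟩
  | succ i ih =>
    obtain ⟨c, hc⟩ := ih
    refine ⟨a * c + h, ?_⟩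
    unfold pol
    rw [hc]
    simp only [map_add, map_mul, map_pow, pow_succ]
    ring

lemma pol_deg (a : ℕ) (ha : 2 ≤ a) (h : ℤ) (i : ℕ) :
    (pol a h i).natDegree = 1 ∧ (pol a h i).leadingCoeff = (a : ℤ) ^ i := by
  obtain ⟨c, hc⟩ := pol_form a h i
  have h0 : (a : ℤ) ^ i ≠ 0 := pow_ne_zero _ (by positivity)
  rw [hc]
  exact ⟨natDegree_linear h0, leadingCoeff_linear h0⟩

lemma pol_inj (a : ℕ) (ha : 2 ≤ a) (h : ℤ) : Function.Injective (pol a h) := by
  intro i j hij
  have h1 := congrArg leadingCoeff hij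
  rw [(pol_deg a ha h i).2, (pol_deg a ha h j).2] at h1
  have h2 : a ^ i = a ^ j := by exact_mod_cast h1
  exact Nat.pow_right_injective ha h2

/-- the system -/
noncomputable def sys (a : ℕ) (h : ℤ) (k : ℕ) : Finset ℤ[X] := (Finset.range k).image (pol a h)

lemma sys_card (a : ℕ) (ha : 2 ≤ a) (h : ℤ) (k : ℕ) : (sys a h k).card = k := by
  unfold sys
  rw [Finset.card_image_of_injective _ (pol_inj a ha h), Finset.card_range]

lemma mem_sys (S : Set ℕ) (a : ℕ) (h : ℤ) (k : ℕ) (n : ℕ) :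
    (∀ f ∈ sys a h k, ∃ m ∈ S, (m : ℤ) = f.eval (n : ℤ)) ↔ ∀ i < k, In S (term a h n i) := by
  unfold sys In
  simp only [Finset.mem_image, Finset.mem_range, forall_exists_index, and_imp]
  constructor
  · intro h1 i hi
    have := h1 (pol a h i) i hi rfl
    rwa [eval_pol] at this
  · rintro h1 f i hi rfl
    rw [eval_pol]
    exact h1 i hi

lemma count_exact (S : Set ℕ) (a : ℕ) (h : ℤ) (k x : ℕ) :
    ({n | n < x ∧ n ∈ exact S a h k}.ncard : ℝ) =
      (polyCount S (sys a h k) x : ℝ) - polyCount S (sys a h (k + 1)) x := by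
  have h1 : polyCount S (sys a h k) x = {n | n < x ∧ n ∈ exact S a h k}.ncard +
      polyCount S (sys a h (k + 1)) x := by
    unfold polyCount
    have f1 : {n : ℕ | n < x ∧ n ∈ exact S a h k}.Finite := (Set.finite_lt_nat x).subset fun n hn => hn.1
    have f2 : {n : ℕ | n < x ∧ ∀ f ∈ sys a h (k + 1), ∃ a ∈ S, (a : ℤ) = f.eval (n : ℤ)}.Finite :=
      (Set.finite_lt_nat x).subset fun n hn => hn.1
    rw [← Set.ncard_union_eq _ f1 f2]
    · congr 1
      ext n
      simp only [Set.mem_ofPred_eq, Set.mem_union, mem_sys]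
      unfold exact
      simp only [Set.mem_ofPred_eq]
      constructor
      · rintro ⟨h1, h2⟩
        by_cases h3 : In S (term a h n k)
        · right
          refine ⟨h1, fun i hi => ?_⟩
          rcases Nat.lt_succ_iff_lt_or_eq.1 hi with h4 | h4
          · exact h2 i h4
          · rw [h4]
            exact h3
        · left
          exact ⟨h1, h2, h3⟩
      · rintro (⟨h1, h2, h3⟩ | ⟨h1, h2⟩)
        · exact ⟨h1, h2⟩
        · exact ⟨h1, fun i hi => h2 i (by omega)⟩
    · rw [Set.disjoint_left]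
      rintro n ⟨_, h2⟩ ⟨_, h3⟩
      rw [mem_sys] at h3
      exact h2.2 (h3 k (Nat.lt_succ_self k))
  rw [h1]
  push_cast
  ring

lemma omega_sys (a : ℕ) (h : ℤ) (k : ℕ) {p : ℕ} (hp : p.Prime) :
    omegaF (sys a h k) p = zeros a h k p := by
  unfold omegaF zeros sys
  congr 1
  ext r
  simp only [Set.mem_ofPred_eq]
  refine and_congr_right fun _ => ?_
  rw [(Nat.prime_iff_prime_int.1 hp).dvd_finsetProd_iff]
  simp only [Finset.mem_image, Finset.mem_range]
  constructor
  · rintro ⟨f, ⟨i, hi, rfl⟩, hf⟩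
    rw [eval_pol] at hf
    exact ⟨i, hi, hf⟩
  · rintro ⟨i, hi, hf⟩
    refine ⟨_, ⟨i, hi, rfl⟩, ?_⟩
    rwa [eval_pol]

lemma term_mod (a : ℕ) (h : ℤ) (p : ℕ) (n m : ℤ) (hnm : (p : ℤ) ∣ n - m) (i : ℕ) :
    (p : ℤ) ∣ term a h n i - term a h m i := by
  induction i with
  | zero => exact hnm
  | succ i ih =>
    have : term a h n (i + 1) - term a h m (i + 1) = a * (term a h n i - term a h m i) := by
      simp only [term]
      ring
    rw [this]
    exact Dvd.dvd.mul_left ih _

lemma zeros_lt (a : ℕ) (h : ℤ) (k : ℕ) {p : ℕ} (hp : p.Prime) :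
    zeros a h k p < p ↔ ∃ r : ℕ, ∀ i < k, ¬ (p : ℤ) ∣ term a h r i := by
  classical
  have h0 : zeros a h k p = ((Finset.range p).filter (fun r : ℕ => ∃ i < k, (p : ℤ) ∣ term a h r i)).card := by
    unfold zeros
    rw [← Set.ncard_coe_finset]
    congr 1
    ext r
    simp
  rw [h0]
  constructor
  · intro h1
    by_contra hcon
    push Not at hcon
    rw [Finset.filter_true_of_mem (fun r _ => hcon r), Finset.card_range] at h1
    exact lt_irrefl _ h1
  · rintro ⟨r, hr⟩
    have h1 : (Finset.range p).filter (fun r : ℕ => ∃ i < k, (p : ℤ) ∣ term a h r i) ⊂ Finset.range p := by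
      refine Finset.filter_ssubset.2 ⟨r % p, Finset.mem_range.2 (Nat.mod_lt _ hp.pos), ?_⟩
      rintro ⟨i, hi, hd⟩
      apply hr i hi
      have h2 : (p : ℤ) ∣ (r : ℤ) - ((r % p : ℕ) : ℤ) := by
        push_cast
        exact Int.dvd_self_sub_emod
      have h3 := term_mod a h p r ((r % p : ℕ) : ℤ) h2 i
      have h4 := dvd_add h3 hd
      rwa [sub_add_cancel] at h4
    have h2 := Finset.card_lt_card h1
    rwa [Finset.card_range] at h2

lemma zeros_le (a : ℕ) (h : ℤ) (k : ℕ) {p : ℕ} : zeros a h k p ≤ p := by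
  unfold zeros
  have h1 : {r : ℕ | r < p ∧ ∃ i < k, (p : ℤ) ∣ term a h r i} ⊆ (Finset.range p : Set ℕ) := by
    intro r hr
    simpa using hr.1
  have h2 := Set.ncard_le_ncard h1 (Finset.finite_toSet _)
  rwa [Set.ncard_coe_finset, Finset.card_range] at h2

lemma const_pos (Q : Finset ℕ) (hQ : ∀ p ∈ Q, p.Prime) (a : ℕ) (h : ℤ) (k : ℕ) :
    0 < const Q a h k ↔ ∀ p ∈ Q, ∃ r : ℕ, ∀ i < k, ¬ (p : ℤ) ∣ term a h r i := by
  have hf : ∀ p ∈ Q, 0 ≤ (1 - (zeros a h k p : ℝ) / p) / (1 - 1 / (p : ℝ)) ^ k ∧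
      (0 < (1 - (zeros a h k p : ℝ) / p) / (1 - 1 / (p : ℝ)) ^ k ↔ zeros a h k p < p) := by
    intro p hp
    have h1 : (1 : ℝ) < p := by exact_mod_cast (hQ p hp).one_lt
    have h2 : (0 : ℝ) < p := by linarith
    have h3 : 0 < 1 - 1 / (p : ℝ) := by
      rw [sub_pos, div_lt_one h2]
      exact h1
    have h4 : 0 < (1 - 1 / (p : ℝ)) ^ k := pow_pos h3 k
    have h5 : (zeros a h k p : ℝ) ≤ p := by exact_mod_cast zeros_le a h k
    constructor
    · refine div_nonneg ?_ h4.le
      rw [sub_nonneg, div_le_one h2]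
      exact h5
    · rw [div_pos_iff_of_pos_right h4, sub_pos, div_lt_one h2]
      exact Nat.cast_lt
  unfold const
  constructor
  · intro h1 p hp
    rw [← zeros_lt a h k (hQ p hp), ← (hf p hp).2]
    refine lt_of_le_of_ne (hf p hp).1 fun h2 => ?_
    rw [Finset.prod_eq_zero hp h2.symm] at h1
    exact lt_irrefl _ h1
  · intro h1
    refine Finset.prod_pos fun p hp => ?_
    rw [(hf p hp).2, zeros_lt a h k (hQ p hp)]
    exact h1 p hp

lemma term_first (i : ℕ) : term 2 1 (-1) i = -1 := by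
  induction i with
  | zero => rfl
  | succ i ih =>
    unfold term
    rw [ih]
    norm_num

lemma term_second (i : ℕ) : term 2 (-1) 1 i = 1 := by
  induction i with
  | zero => rfl
  | succ i ih =>
    unfold term
    rw [ih]
    norm_num

lemma first_ok {p : ℕ} (hp : p.Prime) (k : ℕ) : ∃ r : ℕ, ∀ i < k, ¬ (p : ℤ) ∣ term 2 1 r i := by
  refine ⟨p - 1, fun i _ hd => ?_⟩
  have h1 := term_mod 2 1 p ((p - 1 : ℕ) : ℤ) (-1) (by
    rw [Nat.cast_sub hp.one_lt.le]
    push_cast
    simp) i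
  rw [term_first] at h1
  have h2 := dvd_sub hd h1
  rw [sub_sub_cancel] at h2
  have h3 : (p : ℤ) ∣ 1 := by
    have := Int.dvd_neg.2 h2
    simpa using this
  have h4 : p ∣ 1 := by exact_mod_cast h3
  exact hp.one_lt.ne' (Nat.dvd_one.1 h4)

lemma second_ok {p : ℕ} (hp : p.Prime) (k : ℕ) : ∃ r : ℕ, ∀ i < k, ¬ (p : ℤ) ∣ term 2 (-1) r i := by
  refine ⟨1, fun i _ hd => ?_⟩
  rw [Nat.cast_one, term_second] at hd
  have h4 : p ∣ 1 := by exact_mod_cast hd
  exact hp.one_lt.ne' (Nat.dvd_one.1 h4)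

/-- infinitely many from the asymptotic formula -/
lemma infinite_of_tendsto {B : Set ℕ} {k : ℕ} {c : ℝ} (hc : 0 < c)
    (h : Tendsto (fun x : ℕ => ({n | n < x ∧ n ∈ B}.ncard : ℝ) * Real.log x ^ k / x) atTop (𝓝 c)) :
    B.Infinite := by
  intro hfin
  have h1 : Tendsto (fun x : ℕ => (B.ncard : ℝ) * (Real.log x ^ k / x)) atTop (𝓝 0) := by
    have h2 : Tendsto (fun x : ℕ => Real.log (x : ℝ) ^ k / (x : ℝ)) atTop (𝓝 0) := by
      have h3 := (isLittleO_log_rpow_rpow_atTop (k : ℝ) (show (0 : ℝ) < 1 by norm_num)).tendsto_div_nhds_zero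
      have h4 := h3.comp (tendsto_natCast_atTop_atTop (R := ℝ))
      refine h4.congr fun x => ?_
      simp [Function.comp]
    have h3 := h2.const_mul (B.ncard : ℝ)
    rwa [mul_zero] at h3
  have h2 : c ≤ 0 := by
    refine le_of_tendsto_of_tendsto h h1 ?_
    filter_upwards with x
    rw [mul_div_assoc]
    refine mul_le_mul_of_nonneg_right ?_ (div_nonneg (pow_nonneg (Real.log_natCast_nonneg x) k) (Nat.cast_nonneg x))
    have h5 : {n | n < x ∧ n ∈ B} ⊆ B := fun n hn => hn.2
    exact_mod_cast Set.ncard_le_ncard h5 hfin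
  linarith

end Pool.Agent.Results.MP_39b545_nt.SievedModels

open Pool.Agent.Results.MP_39b545_nt.SievedModels Pool.Agent.R528.RM

/-- In every sieved sequential random model of the primes: (1) almost surely, for all maps
`T x = a x + h` (`a ≥ 2`, `h` any integer) and all `k`, the number of the `n < x` for which exactly
the first `k` terms of `n, T n, T (T n), …` are chosen (the `k` first terms are, the next one is not),
times `(log x) ^ k / x`, tends to `const Q a h k`; (2) `const Q a h k` is positive if and only if no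
`p ∈ Q` divides one of the first `k` terms for every starting point; (3) it is positive for
`T x = 2 x + 1` and for `T x = 2 x - 1`; (4) almost surely for every `k` infinitely many `n` start a
chain of exact length `k` of the first kind, and infinitely many of the second kind. -/
theorem Pool.Agent.Results.MP_39b545_nt.SievedModels.result
    {Ω : Type} [m : MeasurableSpace Ω] (μ : Measure Ω) [IsProbabilityMeasure μ]
    (ℱ : Filtration ℕ m) (A : ℕ → Set Ω) (Q : Finset ℕ) (hQ : ∀ p ∈ Q, p.Prime)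
    (hS : SievedModel μ ℱ A Q) :
    (∀ᵐ ω ∂μ, ∀ (a : ℕ) (h : ℤ), 2 ≤ a → ∀ k : ℕ,
      Tendsto (fun x : ℕ => ({n | n < x ∧ n ∈ exact {n | ω ∈ A n} a h k}.ncard : ℝ) *
        Real.log x ^ k / x) atTop (𝓝 (const Q a h k))) ∧
    (∀ (a : ℕ) (h : ℤ) (k : ℕ),
      0 < const Q a h k ↔ ∀ p ∈ Q, ∃ r : ℕ, ∀ i < k, ¬ (p : ℤ) ∣ term a h r i) ∧
    (∀ k : ℕ, 0 < const Q 2 1 k ∧ 0 < const Q 2 (-1) k) ∧
    (∀ᵐ ω ∂μ, ∀ k : ℕ, (exact {n | ω ∈ A n} 2 1 k).Infinite ∧
      (exact {n | ω ∈ A n} 2 (-1) k).Infinite) := by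
  obtain ⟨hA, hcop, hd⟩ := hS
  have h1 : ∀ᵐ ω ∂μ, ∀ (a : ℕ) (h : ℤ), 2 ≤ a → ∀ k : ℕ,
      Tendsto (fun x : ℕ => ({n | n < x ∧ n ∈ exact {n | ω ∈ A n} a h k}.ncard : ℝ) *
        Real.log x ^ k / x) atTop (𝓝 (const Q a h k)) := by
    filter_upwards [bh_final (μ := μ) (ℱ := ℱ) hA Q hQ hcop hd] with ω hω a h ha k
    have hlaw : ∀ j : ℕ, Tendsto (fun x : ℕ => (polyCount {n | ω ∈ A n} (sys a h j) x : ℝ) *
        Real.log x ^ j / x) atTop (𝓝 (const Q a h j)) := by
      intro j
      have h2 := hω (sys a h j) (by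
        intro f hf
        unfold sys at hf
        obtain ⟨i, _, rfl⟩ := Finset.mem_image.1 hf
        rw [(pol_deg a ha h i).1, (pol_deg a ha h i).2]
        exact ⟨one_pos, by positivity⟩)
      rw [sys_card a ha h j] at h2
      have h3 : (∏ p ∈ Q, (1 - (omegaF (sys a h j) p : ℝ) / p) / (1 - 1 / (p : ℝ)) ^ j) *
          ∏ f ∈ sys a h j, ((f.natDegree : ℝ))⁻¹ = const Q a h j := by
        have h4 : ∏ f ∈ sys a h j, ((f.natDegree : ℝ))⁻¹ = 1 := by
          refine Finset.prod_eq_one fun f hf => ?_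
          unfold sys at hf
          obtain ⟨i, _, rfl⟩ := Finset.mem_image.1 hf
          rw [(pol_deg a ha h i).1]
          norm_num
        rw [h4, mul_one]
        unfold const
        refine Finset.prod_congr rfl fun p hp => ?_
        rw [omega_sys a h j (hQ p hp)]
      rw [h3] at h2
      exact h2
    have h2 : Tendsto (fun x : ℕ => (polyCount {n | ω ∈ A n} (sys a h (k + 1)) x : ℝ) *
        Real.log x ^ k / x) atTop (𝓝 0) := by
      have h3 : Tendsto (fun x : ℕ => (Real.log (x : ℝ))⁻¹) atTop (𝓝 0) :=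
        (Real.tendsto_log_atTop.comp tendsto_natCast_atTop_atTop).inv_tendsto_atTop
      have h4 := (hlaw (k + 1)).mul h3
      rw [mul_zero] at h4
      refine h4.congr' ?_
      filter_upwards [eventually_ge_atTop 3] with x hx
      have hx' : (3 : ℝ) ≤ x := by exact_mod_cast hx
      have hL : Real.log (x : ℝ) ≠ 0 := (Real.log_pos (by linarith)).ne'
      rw [pow_succ]
      field_simp
    have h3 := (hlaw k).sub h2
    rw [sub_zero] at h3
    refine h3.congr fun x => ?_
    rw [count_exact]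
    ring
  have h2 := const_pos Q hQ
  have h3 : ∀ k : ℕ, 0 < const Q 2 1 k ∧ 0 < const Q 2 (-1) k := fun k =>
    ⟨(h2 2 1 k).2 fun p hp => first_ok (hQ p hp) k, (h2 2 (-1) k).2 fun p hp => second_ok (hQ p hp) k⟩
  refine ⟨h1, h2, h3, ?_⟩
  filter_upwards [h1] with ω hω k
  exact ⟨infinite_of_tendsto (h3 k).1 (hω 2 1 le_rfl k), infinite_of_tendsto (h3 k).2 (hω 2 (-1) le_rfl k)⟩
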