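import Pool.Agent.N469.LP.Exact2

/-!
# Chains of exact length two of the map `x ↦ 2 x - h`, for all odd `h` near almost all smooth numbers

Definition used: `Pool.Agent.H560R3.GB.C₂`, the twin prime constant `∏_{p > 2} (1 - 1 / (p - 1) ^ 2)`
(the infimum of the partial products).

The proof combines an elementary bound for the exponential sum over the integers composed of primes from a given set
(`Pool.Agent.N469.SQ.exp_alt`: it is large only near few rational numbers with small denominators), the replacement of the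
von Mangoldt function at the values of a linear form by its sieve model in the second moment (`Pool.Agent.N469.LP.sm_repZ`,
based on the starting files `Pool.Agent.Y885`), a fundamental lemma for the primes of a progression whose images
under a linear form have no small prime factors (`Pool.Agent.N469.LP.HH_main`), and the method of Turán for the third
element of the chain (`Pool.Agent.N469.LP.turan`).
-/

set_option autoImplicit false

namespace Pool.Agent.Results.MP_39b545_nt.SmoothShifts

open Finset Pool.Agent.H560R3.GB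

/-- The chain generated from `x` by the map `x ↦ 2 x - h`. (The problem is about `h = 1`.) -/
def chain (h : ℤ) (x : ℤ) : ℕ → ℤ
  | 0 => x
  | n + 1 => 2 * chain h x n - h

/-- The number `p` starts a chain of exact length `k`: `a_0 = p, …, a_{k - 1}` are prime and `a_k` is composite. -/
def ExactLength (h : ℤ) (k : ℕ) (p : ℕ) : Prop :=
  (∀ i < k, (chain h p i).toNat.Prime) ∧ 1 < chain h p k ∧ ¬ (chain h p k).toNat.Prime

open Classical in
/-- The number of the primes `p` with `x < p ≤ x'` which start a chain of exact length two. -/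
noncomputable def starts (h : ℤ) (x x' : ℕ) : ℕ := ((Ioc x x').filter fun p : ℕ => ExactLength h 2 p).card

/-- The number of the primes `p` with `x < p ≤ x'` which start a chain of exact length two is asymptotically
`2 C₂ ∏_{p ∣ h, p > 2} (p - 1) / (p - 2) (x' - x) / log² N`, for all the intervals `(x, x']` of length at least
`N / (log N) ^ W` on which the elements of the chains are positive and at most `B N`. -/
def Holds (ε : ℝ) (B W N : ℕ) (h : ℤ) : Prop :=
  ∀ x x' : ℕ, x' ≤ B * N → chain h x' 2 ≤ B * N → 0 ≤ chain h x 2 → (x : ℝ) + N / Real.log N ^ W ≤ x' →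
    |(starts h x x' : ℝ) - 2 * C₂ * (∏ p ∈ h.natAbs.primeFactors.filter (fun p => 2 < p), ((p : ℝ) - 1) / ((p : ℝ) - 2)) *
      (((x' : ℝ) - x) / Real.log N ^ 2)| ≤
    ε * (2 * C₂ * (∏ p ∈ h.natAbs.primeFactors.filter (fun p => 2 < p), ((p : ℝ) - 1) / ((p : ℝ) - 2)) *
      (((x' : ℝ) - x) / Real.log N ^ 2))

/-- The integers `1 ≤ v ≤ N` all of whose prime factors belong to `P`. -/
def composedOf (P : Finset ℕ) (N : ℕ) : Finset ℕ := (Icc 1 N).filter fun v => v.primeFactors ⊆ P

/-- The `y`-smooth integers `1 ≤ v ≤ N`: the integers all of whose prime factors are at most `y`. -/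
def smooth (y N : ℕ) : Finset ℕ := (Icc 1 N).filter fun v => ∀ p ∈ v.primeFactors, p ≤ y

theorem chain_two (h x : ℤ) : chain h x 2 = 4 * x + 3 * -h := by
  unfold chain chain chain
  ring

theorem exact_iff (h : ℤ) (p : ℕ) : ExactLength h 2 p ↔
    p.Prime ∧ (2 * (p : ℤ) + -h).toNat.Prime ∧ 1 < 4 * (p : ℤ) + 3 * -h ∧ ¬ (4 * (p : ℤ) + 3 * -h).toNat.Prime := by
  unfold ExactLength
  rw [chain_two]
  constructor
  · rintro ⟨h1, h2, h3⟩
    have a0 := h1 0 (by norm_num)
    have a1 := h1 1 (by norm_num)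
    unfold chain chain at a1
    rw [sub_eq_add_neg] at a1
    exact ⟨a0, a1, h2, h3⟩
  · rintro ⟨a0, a1, h2, h3⟩
    refine ⟨fun i hi => ?_, h2, h3⟩
    interval_cases i
    · exact a0
    · unfold chain chain
      rw [sub_eq_add_neg]
      exact a1

open Pool.Agent.N469.LP in
theorem holds_of (ε : ℝ) (B W N : ℕ) (h : ℤ) (hodd : Odd h) (hex : ExactL ε B W N (-h)) : Holds ε B W N h := by
  classical
  have hne : h ≠ 0 := by
    rintro rfl
    simp at hodd
  intro x x' hx' h4 h5 hxx'
  rw [chain_two] at h4 h5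
  have hkey := hex x x' hx' h4 h5 hxx'
  have e1 : ex (-h) x x' = starts h x x' := by
    unfold ex starts
    congr 1
    ext p
    simp only [mem_filter, exact_iff]
  have e2 : Pool.Agent.N469.LP.dens 2 (-h) 1 = 2 * C₂ * ∏ p ∈ h.natAbs.primeFactors.filter (fun p => 2 < p), ((p : ℝ) - 1) / ((p : ℝ) - 2) := by
    unfold Pool.Agent.N469.LP.dens
    rw [cnt_one, Nat.cast_one, div_one]
    have e3 := sing_pow 1 2 (-h) (by norm_num) (neg_ne_zero.2 hne)
    rwa [Int.natAbs_neg] at e3
  rw [e1, e2] at hkey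
  exact hkey

open Classical in
/-- Let `A`, `B`, `W`, `U`, `K`, the integer `κ ≠ 0`, `0 < ε ≤ 1` and `δ > 0` be fixed, let `N` be large,
`1 ≤ y ≤ log ^ K N`, and let `c` be an arbitrary integer with `|c| ≤ B N`.

(1) Let `P` be an arbitrary set of primes which are at most `y`, with at least `y ^ (1 / 2 + δ) log N` elements. Then
for all the integers `v ≤ N` composed of primes from `P`, up to a proportion of at most `1 / log ^ U N` of them,
all odd `h = c + κ v + r` with `|r| ≤ (log N) ^ A` satisfy `Holds`: the number of the primes `p` in `(x, x']` which start a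
chain of exact length two of the map `x ↦ 2 x - h` is asymptotically the expected number.
(There can be as few as about `N ^ (1 / 2 + δ)` such integers `v`.)

(2) In particular this holds for all the `y`-smooth integers `v ≤ N`, up to a proportion of at most `1 / log ^ U N` of them,
if `y ≥ log ^ (2 + δ) N`. -/
theorem result (A B W U K : ℕ) (κ : ℤ) (hκ : κ ≠ 0) (ε : ℝ) (hε : 0 < ε) (hε1 : ε ≤ 1) (δ : ℝ) (hδ : 0 < δ) :
    ∃ N₀ : ℕ, ∀ N, N₀ ≤ N → ∀ y : ℕ, 1 ≤ y → (y : ℝ) ≤ Real.log N ^ K → ∀ c : ℤ, |c| ≤ B * N →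
      (∀ P : Finset ℕ, (∀ p ∈ P, p.Prime ∧ p ≤ y) → (y : ℝ) ^ (1 / 2 + δ) * Real.log N ≤ P.card →
        (((composedOf P N).filter fun v : ℕ => ∃ r : ℤ, |(r : ℝ)| ≤ Real.log N ^ A ∧ Odd (c + κ * v + r) ∧
          ¬ Holds ε B W N (c + κ * v + r)).card : ℝ) ≤ ((composedOf P N).card : ℝ) / Real.log N ^ U) ∧
      (Real.log N ^ (2 + δ) ≤ y →
        (((smooth y N).filter fun v : ℕ => ∃ r : ℤ, |(r : ℝ)| ≤ Real.log N ^ A ∧ Odd (c + κ * v + r) ∧
          ¬ Holds ε B W N (c + κ * v + r)).card : ℝ) ≤ ((smooth y N).card : ℝ) / Real.log N ^ U) := by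
  obtain ⟨D, N₁, h1⟩ := Pool.Agent.N469.LP.exact_of ε hε hε1 B W
  obtain ⟨N₀, h0⟩ := Pool.Agent.N469.TL.both δ hδ K U _
    (Pool.Agent.N469.LP.sm_lin (ε / 16) (by positivity) (-κ) (neg_ne_zero.2 hκ) 2 (by norm_num) K B A D W U)
  refine ⟨N₀ + N₁, fun N hN y hy hy' c hc => ?_⟩
  refine h0 N (by omega) y hy hy' (fun v : ℕ => ∃ r : ℤ, |(r : ℝ)| ≤ Real.log N ^ A ∧ Odd (c + κ * v + r) ∧
    ¬ Holds ε B W N (c + κ * v + r)) (fun v => inferInstance) ⟨-c, by rwa [abs_neg], ?_⟩
  rintro v ⟨r, hr, hodd, hnot⟩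
  obtain ⟨h, hh⟩ : ∃ h, h = c + κ * (v : ℤ) + r := ⟨_, rfl⟩
  rw [← hh] at hodd hnot
  refine ⟨-r, Pool.Agent.N469.LP.neg_real_abs r _ hr, ?_⟩
  have e : -c + -κ * (v : ℤ) + -r = -h := by rw [hh]; ring
  rw [e]
  have hne : h ≠ 0 := by
    rintro rfl
    simp at hodd
  have hg : Int.gcd 2 (-h) = 1 := by
    obtain ⟨k, hk⟩ := hodd
    rw [hk, Int.gcd_neg]
    simp
  exact ⟨neg_ne_zero.2 hne, hg, ⟨-h, rfl⟩, fun hgood => hnot (holds_of ε B W N h hodd (h1 N (by omega) (-h) hodd.neg hgood))⟩

end Pool.Agent.Results.MP_39b545_nt.SmoothShifts
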